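import Mathlib
import Pool.Agent.Helper47.HK.Prime

/-!
# Project HK: functions on the chart which vanish at all points over a larger field
-/

set_option autoImplicit false

namespace Pool.Agent.Helper69.HK

open MvPolynomial Pool.Agent.Helper64.HK Pool.Agent.Helper77.HK Pool.Agent.Helper47.HK
open Pool.Agent.Helper28.HN (I aff)

variable {k m : ℕ} {a : Fin (k + 1) → Fin (m + 1)}

/-- A point with affine coordinates of `t`, in terms of `ct`. -/
theorem upd_ct {S : Type*} [CommRing S] (P : Fin (k + 1) → I m → S)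
    (h : ∀ j : Fin k, P j.succ 0 = 1) :
    P = Function.update (ct fun q : Fin k × Fin (m + 1) => P q.1.succ q.2.succ) 0 (P 0) := by
  funext l
  refine Fin.cases ?_ (fun l => ?_) l
  · rw [Function.update_self]
  · rw [Function.update_of_ne (Fin.succ_ne_zero l)]
    funext i
    refine Fin.cases ?_ (fun i => ?_) i
    · exact h l
    · rfl

/-- A point of the cone over the chart of `t` is, outside of the denominator, a multiple of a point
of the chart. -/
theorem exists_pc {S : Type*} [Field S] (c : Ix a → S) (P : Fin (k + 1) → I m → S)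
    (hP : OnX c P) (h0 : P 0 ≠ 0) (h : ∀ j : Fin k, P j.succ 0 = 1)
    (hA : Ah c (ct fun q : Fin k × Fin (m + 1) => P q.1.succ q.2.succ) ≠ 0)
    (hD : (Mx c (ct fun q : Fin k × Fin (m + 1) => P q.1.succ q.2.succ)).det ≠ 0) :
    ∃ v : Fin (m + 1) → S, OnX c (pc (fun q : Fin k × Fin (m + 1) => P q.1.succ q.2.succ) v) := by
  set u : Fin k × Fin (m + 1) → S := fun q => P q.1.succ q.2.succ with hu
  have hPu : P = Function.update (ct u) 0 (P 0) := upd_ct P h
  have h1 := (onX_iff c 0).mp hP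
  have hr : ∀ r, rf c 0 (ct u) r (P 0) = 0 := by
    intro r
    have := h1.1 r
    rw [hPu, rf_upd, Function.update_self] at this
    exact this
  have hE : Ef c (a 0) (Function.update (ct u) 0 (P 0)) = 0 := by
    rw [← hPu]
    exact h1.2
  have hPf : Pf c 0 (ct u) (P 0) (P 0) = 0 := by
    rw [Pf_self, hE, mul_zero]
  have hy := det_y c (ct u) (P 0) hr
  have h00 : P 0 0 ≠ 0 := by
    intro h2
    have h3 : (fun i => (Mx c (ct u)).det * P 0 i) = fun i => P 0 1 * Y1 c (ct u) i := by
      funext i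
      rw [hy i, h2]
      ring
    have h4 : P 0 1 ≠ 0 := by
      intro h5
      apply h0
      funext i
      have := congrFun h3 i
      simp only [h5, zero_mul] at this
      exact (mul_eq_zero.mp this).resolve_left hD
    have h6 : Pf c 0 (ct u) (fun i => (Mx c (ct u)).det * P 0 i)
        (fun i => (Mx c (ct u)).det * P 0 i) = 0 := by
      rw [Pf_smul_l, Pf_smul_r, hPf, mul_zero, mul_zero]
    rw [h3, Pf_smul_l, Pf_smul_r] at h6
    have h7 : P 0 1 * (P 0 1 * Ah c (ct u)) = 0 := h6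
    exact mul_ne_zero h4 (mul_ne_zero h4 hA) h7
  refine ⟨fun i => (P 0 0)⁻¹ * P 0 i.succ, ?_⟩
  have hv : (aff fun i : Fin (m + 1) => (P 0 0)⁻¹ * P 0 i.succ : I m → S) =
      fun i => (P 0 0)⁻¹ * P 0 i := by
    funext i
    refine Fin.cases ?_ (fun i => rfl) i
    show (1 : S) = _
    rw [inv_mul_cancel₀ h00]
  rw [pc_eq, hv]
  refine onX_upd c 0 (fun r => ?_) ?_
  · rw [rf_smul, hr r, mul_zero]
  · have h8 := Ef_quad c 0 (ct u) (P 0 0)⁻¹ 0 (P 0) (P 0)
    rw [hE, mul_zero, mul_zero, mul_zero, zero_mul, zero_add, zero_add] at h8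
    simpa using h8

/-- A function on the component which dominates the space of the `t` and vanishes at all points over
`L` is zero. -/
theorem mem_of_points {K L : Type} [Field K] [CharZero K] [Field L] [Algebra K L] {c : Ix a → K}
    (hns : NS c) (hD : Dp c ≠ 0)
    (hni : ∀ F : MvPolynomial (Fin k × Fin (m + 1)) L, (∀ P : Fin (k + 1) → I m → L,
      OnX (fun e => algebraMap K L (c e)) P → P 0 ≠ 0 → (∀ j : Fin k, P j.succ 0 = 1) →
      eval (fun q => P q.1.succ q.2.succ) F = 0) → F = 0)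
    (P : Ideal (MvPolynomial ((Fin k × Fin (m + 1)) ⊕ Fin (m + 1)) K)) (hprime : P.IsPrime)
    (hP : chartIdeal c ≤ P) (hdom : Dom P)
    (F : MvPolynomial ((Fin k × Fin (m + 1)) ⊕ Fin (m + 1)) K)
    (hF : ∀ φ : (MvPolynomial ((Fin k × Fin (m + 1)) ⊕ Fin (m + 1)) K ⧸ P) →ₐ[K] L,
      φ (Ideal.Quotient.mk P F) = 0) : F ∈ P := by
  obtain ⟨N, hN1, hN2⟩ := exists_normpoly.{0, 0} c hns F
  have h1 : map (algebraMap K L) (N * Ap c * Dp c) = 0 := by
    refine hni _ fun Q hQ hQ0 hQ1 => ?_
    rw [eval_map, ← aeval_def]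
    rw [map_mul, map_mul, aeval_Ap, aeval_Dp]
    by_cases hA : Ah (fun e => algebraMap K L (c e))
        (ct fun q : Fin k × Fin (m + 1) => Q q.1.succ q.2.succ) = 0
    · rw [hA]
      ring
    by_cases hDQ : (Mx (fun e => algebraMap K L (c e))
        (ct fun q : Fin k × Fin (m + 1) => Q q.1.succ q.2.succ)).det = 0
    · rw [hDQ]
      ring
    obtain ⟨v, hv⟩ := exists_pc _ Q hQ hQ0 hQ1 hA hDQ
    have hker : ∀ G ∈ P, (aeval (Sum.elim (fun q : Fin k × Fin (m + 1) => Q q.1.succ q.2.succ) v) :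
        MvPolynomial _ K →ₐ[K] L) G = 0 :=
      fun G hG => eval_of_mem hns hP hdom hG hv hA hDQ
    have h1 := hF (Ideal.Quotient.liftₐ P (aeval (Sum.elim _ v)) hker)
    have h2 : aeval (Sum.elim (fun q : Fin k × Fin (m + 1) => Q q.1.succ q.2.succ) v) F = 0 := h1
    rw [hN1 L _ v hv h2]
    ring
  have h2 : N * Ap c * Dp c = 0 := by
    apply map_injective (algebraMap K L) (algebraMap K L).injective
    rw [h1, map_zero]
  have h3 : N = 0 := by
    rcases mul_eq_zero.mp h2 with h4 | h4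
    · exact (mul_eq_zero.mp h4).resolve_right (NS.Ap_ne hns)
    · exact absurd h4 hD
  exact mem_of_vanish (NS.Ap_ne hns) hD hprime hP hdom (hN2 h3)

end Pool.Agent.Helper69.HK
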